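import Mathlib

/-!
# The d-reflection preserves arbitrary products of `T₀` spaces

The proof has three steps.

* A continuous map `j : X → Z` into a d-space is a d-reflection as soon as it is inducing and no
  proper subset of `Z` which is closed under directed suprema contains its range
  (`isDReflection_of_dense`); conversely every d-reflection of a `T₀` space has these two
  properties (`inducing_of_reflection`, `dense_of_reflection`).
* Products of d-spaces are d-spaces, products of inducing maps are inducing.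
* Products of d-dense maps are d-dense (`dense_pi`). Points of the product which differ from points
  of the range in finitely many coordinates are reached by induction. For an arbitrary point
  `r` of the product there are points `x i` with `μ i (x i) ≤ r i`, and `r` is the directed
  supremum of the points which agree with `r` on a finite set of indices and with `μ i (x i)`
  elsewhere.
-/

set_option autoImplicit false

open Set Topology

namespace Pool.Agent.Results.MP_c8df5e_gt.ArbitraryProducts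

universe u v w

/-- The specialization order of a space: `x ≤ y` iff `x` lies in the closure of `{y}`. -/
def Sp {X : Type u} [TopologicalSpace X] (x y : X) : Prop := x ∈ closure {y}

/-- `D` is a (nonempty) directed subset for the specialization order. -/
def Dir {X : Type u} [TopologicalSpace X] (D : Set X) : Prop :=
  D.Nonempty ∧ ∀ x ∈ D, ∀ y ∈ D, ∃ z ∈ D, Sp x z ∧ Sp y z

/-- `s` is a supremum of `D` in the specialization order. -/
def IsSup {X : Type u} [TopologicalSpace X] (D : Set X) (s : X) : Prop :=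
  (∀ d ∈ D, Sp d s) ∧ ∀ b, (∀ d ∈ D, Sp d b) → Sp s b

/-- d-spaces (monotone convergence spaces): `T₀` spaces in which every directed subset `D` has a
supremum, and every open set which contains the supremum of `D` meets `D`. -/
def DSpace (X : Type u) [TopologicalSpace X] : Prop :=
  T0Space X ∧ ∀ D : Set X, Dir D →
    ∃ s, IsSup D s ∧ ∀ U : Set X, IsOpen U → s ∈ U → (D ∩ U).Nonempty

/-- `μ : X → Z` is a d-reflection of `X`: the space `Z` is a d-space, `μ` is continuous, and every
continuous map of `X` to a d-space factors through `μ` by exactly one continuous map. -/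
def IsDReflection {X Z : Type u} [TopologicalSpace X] [TopologicalSpace Z] (μ : X → Z) : Prop :=
  DSpace Z ∧ Continuous μ ∧ ∀ (Y : Type u) [TopologicalSpace Y], DSpace Y →
    ∀ f : X → Y, Continuous f → ∃! g : Z → Y, Continuous g ∧ g ∘ μ = f

/-! ### Directed limits -/

/-- `s` is the directed limit of `D`: an open set contains `s` iff it meets `D`. -/
def Lim {X : Type u} [TopologicalSpace X] (D : Set X) (s : X) : Prop :=
  ∀ U : Set X, IsOpen U → (s ∈ U ↔ (D ∩ U).Nonempty)

theorem sp_iff {X : Type u} [TopologicalSpace X] {x y : X} :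
    Sp x y ↔ ∀ U : Set X, IsOpen U → x ∈ U → y ∈ U := by
  rw [Sp, ← specializes_iff_mem_closure, specializes_iff_forall_open]

theorem sp_refl {X : Type u} [TopologicalSpace X] (x : X) : Sp x x := subset_closure rfl

theorem sp_trans {X : Type u} [TopologicalSpace X] {x y z : X} (h : Sp x y) (h' : Sp y z) :
    Sp x z := by
  rw [sp_iff] at *
  exact fun U hU hx => h' U hU (h U hU hx)

theorem sp_map {X : Type u} {Y : Type v} [TopologicalSpace X] [TopologicalSpace Y] {f : X → Y}
    (hf : Continuous f) {x y : X} (h : Sp x y) : Sp (f x) (f y) := by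
  rw [sp_iff] at *
  exact fun U hU hx => h _ (hU.preimage hf) hx

theorem Lim.isSup {X : Type u} [TopologicalSpace X] {D : Set X} {s : X} (h : Lim D s) :
    IsSup D s := by
  refine ⟨fun d hd => sp_iff.2 fun U hU hdU => (h U hU).2 ⟨d, hd, hdU⟩, fun b hb => ?_⟩
  refine sp_iff.2 fun U hU hs => ?_
  obtain ⟨d, hd, hdU⟩ := (h U hU).1 hs
  exact sp_iff.1 (hb d hd) U hU hdU

theorem dSpace_iff {X : Type u} [TopologicalSpace X] :
    DSpace X ↔ T0Space X ∧ ∀ D : Set X, Dir D → ∃ s, Lim D s := by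
  constructor
  · rintro ⟨h0, h⟩
    refine ⟨h0, fun D hD => ?_⟩
    obtain ⟨s, hs, hU⟩ := h D hD
    refine ⟨s, fun U hU' => ⟨fun hsU => hU U hU' hsU, ?_⟩⟩
    rintro ⟨d, hd, hdU⟩
    exact sp_iff.1 (hs.1 d hd) U hU' hdU
  · rintro ⟨h0, h⟩
    refine ⟨h0, fun D hD => ?_⟩
    obtain ⟨s, hs⟩ := h D hD
    exact ⟨s, hs.isSup, fun U hU hsU => (hs U hU).1 hsU⟩

theorem Lim.unique {X : Type u} [TopologicalSpace X] [T0Space X] {D : Set X} {s t : X}
    (h : Lim D s) (h' : Lim D t) : s = t := by
  refine (inseparable_iff_forall_isOpen.2 fun U hU => ?_).eq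
  rw [h U hU, h' U hU]

theorem Dir.image {X : Type u} {Y : Type v} [TopologicalSpace X] [TopologicalSpace Y] {f : X → Y}
    (hf : Continuous f) {D : Set X} (h : Dir D) : Dir (f '' D) := by
  refine ⟨h.1.image f, ?_⟩
  rintro _ ⟨x, hx, rfl⟩ _ ⟨y, hy, rfl⟩
  obtain ⟨z, hz, hxz, hyz⟩ := h.2 x hx y hy
  exact ⟨f z, ⟨z, hz, rfl⟩, sp_map hf hxz, sp_map hf hyz⟩

theorem Lim.image {X : Type u} {Y : Type v} [TopologicalSpace X] [TopologicalSpace Y] {f : X → Y}
    (hf : Continuous f) {D : Set X} {s : X} (h : Lim D s) : Lim (f '' D) (f s) := by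
  intro U hU
  have h1 := h (f ⁻¹' U) (hU.preimage hf)
  rw [← mem_preimage, h1]
  constructor
  · rintro ⟨d, hd, hdU⟩
    exact ⟨f d, ⟨d, hd, rfl⟩, hdU⟩
  · rintro ⟨_, ⟨d, hd, rfl⟩, hdU⟩
    exact ⟨d, hd, hdU⟩

/-- `B` is closed under directed suprema. -/
def DClosed {X : Type u} [TopologicalSpace X] (B : Set X) : Prop :=
  ∀ D ⊆ B, Dir D → ∀ s, Lim D s → s ∈ B

/-- the only d-closed set which contains `A` is the whole space -/
def DDense {X : Type u} [TopologicalSpace X] (A : Set X) : Prop :=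
  ∀ B : Set X, A ⊆ B → DClosed B → ∀ x, x ∈ B

/-! ### Products -/

theorem sp_pi {I : Type v} {R : I → Type u} [∀ i, TopologicalSpace (R i)] {x y : ∀ i, R i} :
    Sp x y ↔ ∀ i, Sp (x i) (y i) := by
  simp only [Sp, ← specializes_iff_mem_closure, specializes_pi]

theorem Dir.exists_finset {I : Type v} {X : Type u} [TopologicalSpace X] {D : Set X} (h : Dir D)
    (F : Finset I) (d : I → X) (hd : ∀ i ∈ F, d i ∈ D) : ∃ z ∈ D, ∀ i ∈ F, Sp (d i) z := by
  classical
  induction F using Finset.induction_on with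
  | empty =>
    obtain ⟨z, hz⟩ := h.1
    exact ⟨z, hz, fun i hi => absurd hi (Finset.notMem_empty i)⟩
  | insert j F hj ih =>
    obtain ⟨z, hz, hzF⟩ := ih fun i hi => hd i (Finset.mem_insert_of_mem hi)
    obtain ⟨z', hz', h1, h2⟩ := h.2 z hz (d j) (hd j (Finset.mem_insert_self j F))
    refine ⟨z', hz', fun i hi => ?_⟩
    rcases Finset.mem_insert.1 hi with rfl | hi
    · exact h2
    · exact sp_trans (hzF i hi) h1

/-- directed limits in products are computed coordinatewise -/
theorem lim_pi {I : Type v} {R : I → Type u} [∀ i, TopologicalSpace (R i)] {D : Set (∀ i, R i)}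
    (hD : Dir D) {s : ∀ i, R i} (hs : ∀ i, Lim ((fun d : ∀ i, R i => d i) '' D) (s i)) :
    Lim D s := by
  intro U hU
  constructor
  · intro hsU
    obtain ⟨F, V, hV, hVU⟩ := isOpen_pi_iff.1 hU s hsU
    have h1 : ∀ i, ∃ d : ∀ i, R i, i ∈ F → d ∈ D ∧ d i ∈ V i := by
      intro i
      by_cases hi : i ∈ F
      · obtain ⟨_, ⟨d, hd, rfl⟩, hdV⟩ := (hs i (V i) (hV i hi).1).1 (hV i hi).2
        exact ⟨d, fun _ => ⟨hd, hdV⟩⟩
      · exact ⟨s, fun h => absurd h hi⟩
    choose d hd using h1
    obtain ⟨z, hz, hzF⟩ := hD.exists_finset F d fun i hi => (hd i hi).1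
    refine ⟨z, hz, hVU fun i hi => ?_⟩
    exact sp_iff.1 (sp_pi.1 (hzF i hi) i) (V i) (hV i hi).1 (hd i hi).2
  · rintro ⟨d, hd, hdU⟩
    refine sp_iff.1 (sp_pi.2 fun i => ?_) U hU hdU
    exact (hs i).isSup.1 (d i) ⟨d, hd, rfl⟩

theorem dSpace_pi {I : Type v} {R : I → Type u} [∀ i, TopologicalSpace (R i)]
    (h : ∀ i, DSpace (R i)) : DSpace (∀ i, R i) := by
  have h0 : ∀ i, T0Space (R i) := fun i => (h i).1
  refine dSpace_iff.2 ⟨inferInstance, fun D hD => ?_⟩
  choose s hs using fun i => (dSpace_iff.1 (h i)).2 _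
    (hD.image (f := fun d : ∀ i, R i => d i) (continuous_apply i))
  exact ⟨s, lim_pi hD hs⟩

/-- products of d-dense maps are d-dense -/
theorem dense_pi {I : Type v} {X : I → Type w} {R : I → Type u} [∀ i, TopologicalSpace (R i)]
    (μ : ∀ i, X i → R i) (h : ∀ i, DDense (range (μ i))) :
    DDense (range fun (x : ∀ i, X i) (i : I) => μ i (x i)) := by
  classical
  intro B hB hBc
  -- points which differ from the range in finitely many coordinates
  have h1 : ∀ F : Finset I, ∀ r : ∀ i, R i, (∀ i, i ∉ F → r i ∈ range (μ i)) → r ∈ B := by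
    intro F
    induction F using Finset.induction_on with
    | empty =>
      intro r hr
      choose x hx using fun i => hr i (Finset.notMem_empty i)
      exact hB ⟨x, funext hx⟩
    | insert j F hj ih =>
      intro r hr
      have hcont : Continuous fun y : R j => Function.update r j y :=
        continuous_const.update j continuous_id
      have h2 : ∀ y : R j, y ∈ {y : R j | Function.update r j y ∈ B} := by
        refine h j _ ?_ ?_
        · rintro _ ⟨x, rfl⟩
          refine ih _ fun i hi => ?_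
          rcases eq_or_ne i j with rfl | hij
          · rw [Function.update_self]
            exact ⟨x, rfl⟩
          · rw [Function.update_of_ne hij]
            refine hr i fun h => ?_
            rcases Finset.mem_insert.1 h with h | h
            · exact hij h
            · exact hi h
        · intro D hDC hD s hs
          refine hBc _ ?_ (hD.image hcont) _ (hs.image hcont)
          rintro _ ⟨d, hd, rfl⟩
          exact hDC hd
      have h3 := h2 (r j)
      rwa [mem_ofPred_eq, Function.update_eq_self] at h3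
  intro r
  -- lower bounds in the ranges
  have h2 : ∀ i, ∃ x : X i, Sp (μ i x) (r i) := by
    intro i
    refine h i {y | ∃ x : X i, Sp (μ i x) y} ?_ ?_ (r i)
    · rintro _ ⟨x, rfl⟩
      exact ⟨x, sp_refl _⟩
    · intro D hDC hD s hs
      obtain ⟨d, hd⟩ := hD.1
      obtain ⟨x, hx⟩ := hDC hd
      exact ⟨x, sp_trans hx (hs.isSup.1 d hd)⟩
  choose x hx using h2
  let p : Finset I → ∀ i, R i := fun F i => if i ∈ F then r i else μ i (x i)
  have hp : ∀ F i, Sp (p F i) (r i) := by
    intro F i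
    by_cases hi : i ∈ F
    · simp only [p, hi, if_true]
      exact sp_refl _
    · simp only [p, hi, if_false]
      exact hx i
  have hmono : ∀ F G : Finset I, F ⊆ G → Sp (p F) (p G) := by
    intro F G hFG
    refine sp_pi.2 fun i => ?_
    by_cases hi : i ∈ G
    · have : p G i = r i := by simp only [p, hi, if_true]
      rw [this]
      exact hp F i
    · have hi' : i ∉ F := fun h => hi (hFG h)
      simp only [p, hi, hi', if_false]
      exact sp_refl _
  have hD : Dir (range p) := by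
    refine ⟨⟨p ∅, ∅, rfl⟩, ?_⟩
    rintro _ ⟨F, rfl⟩ _ ⟨G, rfl⟩
    exact ⟨p (F ∪ G), ⟨F ∪ G, rfl⟩, hmono _ _ Finset.subset_union_left,
      hmono _ _ Finset.subset_union_right⟩
  refine hBc (range p) ?_ hD r ?_
  · rintro _ ⟨F, rfl⟩
    refine h1 F (p F) fun i hi => ?_
    simp only [p, hi, if_false]
    exact ⟨x i, rfl⟩
  · intro U hU
    constructor
    · intro hrU
      obtain ⟨F, V, hV, hVU⟩ := isOpen_pi_iff.1 hU r hrU
      refine ⟨p F, ⟨F, rfl⟩, hVU fun i hi => ?_⟩
      have hi' : i ∈ F := hi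
      simp only [p, hi', if_true]
      exact (hV i hi').2
    · rintro ⟨_, ⟨F, rfl⟩, hFU⟩
      exact sp_iff.1 (sp_pi.2 (hp F)) U hU hFU

/-! ### d-reflections are the d-dense inducing maps into d-spaces -/

theorem isDReflection_of_dense {X Z : Type u} [TopologicalSpace X] [TopologicalSpace Z]
    {j : X → Z} (hZ : DSpace Z) (hj : IsInducing j) (hd : DDense (range j)) :
    IsDReflection j := by
  refine ⟨hZ, hj.continuous, fun Y _ hY f hf => ?_⟩
  obtain ⟨hY0, hYD⟩ := dSpace_iff.1 hY
  -- the candidate values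
  let P : Z → Y → Prop := fun z y => ∀ (V : Set Y) (W : Set Z), IsOpen V → IsOpen W →
    j ⁻¹' W = f ⁻¹' V → (y ∈ V ↔ z ∈ W)
  have hW : ∀ V : Set Y, IsOpen V → ∃ W : Set Z, IsOpen W ∧ j ⁻¹' W = f ⁻¹' V :=
    fun V hV => hj.isOpen_iff.1 (hV.preimage hf)
  have huniq : ∀ z y y', P z y → P z y' → y = y' := by
    intro z y y' h h'
    refine (inseparable_iff_forall_isOpen.2 fun V hV => ?_).eq
    obtain ⟨W, hWo, hWV⟩ := hW V hV
    rw [h V W hV hWo hWV, h' V W hV hWo hWV]
  have hrange : ∀ x, P (j x) (f x) := by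
    intro x V W _ _ hWV
    have h : x ∈ j ⁻¹' W ↔ x ∈ f ⁻¹' V := by rw [hWV]
    exact h.symm
  have hall : ∀ z, z ∈ {z | ∃ y, P z y} := by
    refine hd _ ?_ ?_
    · rintro _ ⟨x, rfl⟩
      exact ⟨f x, hrange x⟩
    · intro D hDC hD s hs
      have hE : Dir {y | ∃ d ∈ D, P d y} := by
        constructor
        · obtain ⟨d, hdD⟩ := hD.1
          obtain ⟨y, hy⟩ := hDC hdD
          exact ⟨y, d, hdD, hy⟩
        · rintro y₁ ⟨d₁, hd₁, h₁⟩ y₂ ⟨d₂, hd₂, h₂⟩
          obtain ⟨d, hdD, hs₁, hs₂⟩ := hD.2 d₁ hd₁ d₂ hd₂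
          obtain ⟨y, hy⟩ := hDC hdD
          refine ⟨y, ⟨d, hdD, hy⟩, sp_iff.2 fun V hV hV' => ?_, sp_iff.2 fun V hV hV' => ?_⟩
          · obtain ⟨W, hWo, hWV⟩ := hW V hV
            exact (hy V W hV hWo hWV).2 (sp_iff.1 hs₁ W hWo ((h₁ V W hV hWo hWV).1 hV'))
          · obtain ⟨W, hWo, hWV⟩ := hW V hV
            exact (hy V W hV hWo hWV).2 (sp_iff.1 hs₂ W hWo ((h₂ V W hV hWo hWV).1 hV'))
      obtain ⟨t, ht⟩ := hYD _ hE
      refine ⟨t, fun V W hV hWo hWV => ?_⟩
      rw [ht V hV, hs W hWo]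
      constructor
      · rintro ⟨y, ⟨d, hdD, hy⟩, hyV⟩
        exact ⟨d, hdD, (hy V W hV hWo hWV).1 hyV⟩
      · rintro ⟨d, hdD, hdW⟩
        obtain ⟨y, hy⟩ := hDC hdD
        exact ⟨y, ⟨d, hdD, hy⟩, (hy V W hV hWo hWV).2 hdW⟩
  choose g hg using hall
  refine ⟨g, ⟨?_, ?_⟩, ?_⟩
  · rw [continuous_def]
    intro V hV
    obtain ⟨W, hWo, hWV⟩ := hW V hV
    have : g ⁻¹' V = W := by
      ext z
      exact hg z V W hV hWo hWV
    rwa [this]
  · funext x
    exact huniq (j x) _ _ (hg (j x)) (hrange x)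
  · rintro g' ⟨hg'c, hg'j⟩
    funext z
    refine huniq z _ _ ?_ (hg z)
    revert z
    refine hd {z | P z (g' z)} ?_ ?_
    · rintro _ ⟨x, rfl⟩
      have : g' (j x) = f x := congrFun hg'j x
      show P (j x) (g' (j x))
      rw [this]
      exact hrange x
    · intro D hDC hD s hs V W hV hWo hWV
      rw [(hs.image hg'c) V hV, hs W hWo]
      constructor
      · rintro ⟨_, ⟨d, hdD, rfl⟩, hdV⟩
        exact ⟨d, hdD, (hDC hdD V W hV hWo hWV).1 hdV⟩
      · rintro ⟨d, hdD, hdW⟩
        exact ⟨g' d, ⟨d, hdD, rfl⟩, (hDC hdD V W hV hWo hWV).2 hdW⟩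

/-- The Sierpinski space is a d-space. -/
theorem dSpace_prop : DSpace Prop := by
  refine dSpace_iff.2 ⟨inferInstance, fun D hD => ⟨∃ d ∈ D, d, fun U hU => ?_⟩⟩
  have hfalse : ∀ q : Prop, ¬ q → q ∈ U → U = univ := by
    intro q hq hqU
    have h1 : q = False := propext ⟨hq, False.elim⟩
    rw [h1] at hqU
    have h2 := hU.mem_nhds hqU
    rwa [nhds_false, Filter.mem_top] at h2
  constructor
  · intro h
    by_cases hex : ∃ d ∈ D, d
    · obtain ⟨d, hd, hdt⟩ := hex
      refine ⟨d, hd, ?_⟩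
      have h1 : (∃ d ∈ D, d) = d := propext ⟨fun _ => hdt, fun _ => ⟨d, hd, hdt⟩⟩
      rwa [h1] at h
    · obtain ⟨d, hd⟩ := hD.1
      rw [hfalse _ hex h]
      exact ⟨d, hd, trivial⟩
  · rintro ⟨d, hd, hdU⟩
    by_cases hdt : d
    · have h1 : (∃ d ∈ D, d) = d := propext ⟨fun _ => hdt, fun _ => ⟨d, hd, hdt⟩⟩
      rwa [h1]
    · rw [hfalse _ hdt hdU]
      trivial

/-- A d-reflection of a `T₀` space is an inducing map. -/
theorem inducing_of_reflection {X Z : Type u} [TopologicalSpace X] [T0Space X]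
    [TopologicalSpace Z] {μ : X → Z} (h : IsDReflection μ) : IsInducing μ := by
  obtain ⟨g, ⟨hg, hgμ⟩, -⟩ := h.2.2 (TopologicalSpace.Opens X → Prop)
    (dSpace_pi fun _ => dSpace_prop) (TopologicalSpace.productOfMemOpens X)
    (TopologicalSpace.productOfMemOpens X).continuous
  have h1 := TopologicalSpace.productOfMemOpens_isInducing X
  rw [← hgμ] at h1
  exact IsInducing.of_comp h.2.1 hg h1

/-- A d-closed subspace of a d-space is a d-space. -/
theorem dSpace_subtype {Z : Type u} [TopologicalSpace Z] (hZ : DSpace Z) {B : Set Z}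
    (hB : DClosed B) : DSpace B := by
  have h0 : T0Space Z := hZ.1
  refine dSpace_iff.2 ⟨inferInstance, fun D hD => ?_⟩
  have hD' : Dir (Subtype.val '' D) := hD.image continuous_subtype_val
  obtain ⟨s, hs⟩ := (dSpace_iff.1 hZ).2 _ hD'
  have hsB : s ∈ B := hB _ (by rintro _ ⟨d, -, rfl⟩; exact d.2) hD' s hs
  refine ⟨⟨s, hsB⟩, fun U hU => ?_⟩
  obtain ⟨V, hV, rfl⟩ := isOpen_induced_iff.1 hU
  rw [mem_preimage, hs V hV]
  constructor
  · rintro ⟨_, ⟨d, hd, rfl⟩, hdV⟩
    exact ⟨d, hd, hdV⟩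
  · rintro ⟨d, hd, hdV⟩
    exact ⟨d.1, ⟨d, hd, rfl⟩, hdV⟩

/-- A d-reflection has d-dense range. -/
theorem dense_of_reflection {X Z : Type u} [TopologicalSpace X] [TopologicalSpace Z] {μ : X → Z}
    (h : IsDReflection μ) : DDense (range μ) := by
  intro B hμB hB z
  obtain ⟨g, ⟨hg, hgμ⟩, -⟩ := h.2.2 B (dSpace_subtype h.1 hB)
    (fun x => ⟨μ x, hμB ⟨x, rfl⟩⟩) (h.2.1.subtype_mk _)
  obtain ⟨k, -, hk⟩ := h.2.2 Z h.1 μ h.2.1
  have h1 : (fun z => (g z : Z)) = k := by
    refine hk _ ⟨continuous_subtype_val.comp hg, ?_⟩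
    funext x
    have := congrFun hgμ x
    exact congrArg Subtype.val this
  have h2 : id = k := hk _ ⟨continuous_id, rfl⟩
  have h3 : (g z : Z) = z := by
    have := congrFun (h1.trans h2.symm) z
    exact this
  rw [← h3]
  exact (g z).2

/-- Every `T₀` space has a d-reflection (Wyler, Ershov, Keimel-Lawson). -/
theorem exists_reflection (X : Type u) [TopologicalSpace X] [T0Space X] :
    ∃ (Z : Type u) (_ : TopologicalSpace Z) (μ : X → Z), IsDReflection μ := by
  let e := TopologicalSpace.productOfMemOpens X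
  have he : IsInducing e := TopologicalSpace.productOfMemOpens_isInducing X
  have hS : DSpace (TopologicalSpace.Opens X → Prop) := dSpace_pi fun _ => dSpace_prop
  let B : Set (TopologicalSpace.Opens X → Prop) := ⋂₀ {A | range e ⊆ A ∧ DClosed A}
  have hrB : range e ⊆ B := fun z hz A hA => hA.1 hz
  have hB : DClosed B := fun D hDB hD s hs A hA => hA.2 D (fun d hd => hDB hd A hA) hD s hs
  let μ : X → B := fun x => ⟨e x, hrB ⟨x, rfl⟩⟩
  have hμc : Continuous μ := e.continuous.subtype_mk _
  have hμ : IsInducing μ := IsInducing.of_comp hμc continuous_subtype_val he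
  refine ⟨B, inferInstance, μ, isDReflection_of_dense (dSpace_subtype hS hB) hμ ?_⟩
  intro A hA hAc z
  have h1 : (Subtype.val '' A) ∈ {A | range e ⊆ A ∧ DClosed A} := by
    constructor
    · rintro _ ⟨x, rfl⟩
      exact ⟨μ x, hA ⟨x, rfl⟩, rfl⟩
    · intro D hDA hD s hs
      have hDB : D ⊆ B := fun d hd => by
        obtain ⟨a, -, rfl⟩ := hDA hd
        exact a.2
      have hsB : s ∈ B := hB D hDB hD s hs
      have h2 : (⟨s, hsB⟩ : B) ∈ A := by
        refine hAc (Subtype.val ⁻¹' D) ?_ ?_ _ ?_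
        · rintro ⟨d, hdB⟩ hd
          obtain ⟨a, ha, had⟩ := hDA hd
          have : a = ⟨d, hdB⟩ := Subtype.ext had
          rwa [← this]
        · constructor
          · obtain ⟨d, hd⟩ := hD.1
            exact ⟨⟨d, hDB hd⟩, hd⟩
          · rintro x hx y hy
            obtain ⟨z, hz, hxz, hyz⟩ := hD.2 x.1 hx y.1 hy
            refine ⟨⟨z, hDB hz⟩, hz, ?_, ?_⟩
            · rw [sp_iff] at hxz ⊢
              intro U hU hxU
              obtain ⟨V, hV, rfl⟩ := isOpen_induced_iff.1 hU
              exact hxz V hV hxU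
            · rw [sp_iff] at hyz ⊢
              intro U hU hyU
              obtain ⟨V, hV, rfl⟩ := isOpen_induced_iff.1 hU
              exact hyz V hV hyU
        · intro U hU
          obtain ⟨V, hV, rfl⟩ := isOpen_induced_iff.1 hU
          rw [mem_preimage, hs V hV]
          constructor
          · rintro ⟨d, hd, hdV⟩
            exact ⟨⟨d, hDB hd⟩, hd, hdV⟩
          · rintro ⟨d, hd, hdV⟩
            exact ⟨d.1, hd, hdV⟩
      exact ⟨_, h2, rfl⟩
  obtain ⟨a, ha, haz⟩ := z.2 _ h1
  have : a = z := Subtype.ext haz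
  rwa [← this]

/-- The d-reflection preserves arbitrary products: the product of d-reflections `μ i` of `T₀`
spaces `X i` is a d-reflection of the product of the `X i`. -/
theorem reflection_pi {I : Type u} {X : I → Type u} [∀ i, TopologicalSpace (X i)]
    [∀ i, T0Space (X i)] {R : I → Type u} [∀ i, TopologicalSpace (R i)] (μ : ∀ i, X i → R i)
    (hμ : ∀ i, IsDReflection (μ i)) :
    IsDReflection (fun (x : ∀ i, X i) (i : I) => μ i (x i)) :=
  isDReflection_of_dense (dSpace_pi fun i => (hμ i).1)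
    (IsInducing.piMap fun i => inducing_of_reflection (hμ i))
    (dense_pi μ fun i => dense_of_reflection (hμ i))

/-- Two d-reflections of one space are homeomorphic. -/
theorem homeo_of_reflections {X Z W : Type u} [TopologicalSpace X] [TopologicalSpace Z]
    [TopologicalSpace W] {μ : X → Z} {ν : X → W} (hμ : IsDReflection μ) (hν : IsDReflection ν) :
    ∃ e : W ≃ₜ Z, ∀ x, e (ν x) = μ x := by
  obtain ⟨f, ⟨hf, hfν⟩, -⟩ := hν.2.2 Z hμ.1 μ hμ.2.1
  obtain ⟨g, ⟨hg, hgμ⟩, -⟩ := hμ.2.2 W hν.1 ν hν.2.1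
  obtain ⟨k, -, hk⟩ := hμ.2.2 Z hμ.1 μ hμ.2.1
  obtain ⟨l, -, hl⟩ := hν.2.2 W hν.1 ν hν.2.1
  have h1 : f ∘ g = id := by
    rw [hk (f ∘ g) ⟨hf.comp hg, by rw [Function.comp_assoc, hgμ, hfν]⟩,
      hk id ⟨continuous_id, rfl⟩]
  have h2 : g ∘ f = id := by
    rw [hl (g ∘ f) ⟨hg.comp hf, by rw [Function.comp_assoc, hfν, hgμ]⟩,
      hl id ⟨continuous_id, rfl⟩]
  exact ⟨⟨⟨f, g, congrFun h2, congrFun h1⟩, hf, hg⟩, congrFun hfν⟩

/-- **The d-reflection functor preserves arbitrary products of `T₀` spaces.** Let `X i` (`i ∈ I`)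
be `T₀` spaces with d-reflections `μ i : X i → R i`, and let `ν : ∏ X i → W` be a d-reflection of
the product. Then there is a homeomorphism of `W` onto `∏ R i`, and it carries `ν` to the product
of the maps `μ i`; in particular the product of the `μ i` is itself a d-reflection. -/
theorem result {I : Type u} (X : I → Type u) [∀ i, TopologicalSpace (X i)]
    [∀ i, T0Space (X i)] (R : I → Type u) [∀ i, TopologicalSpace (R i)] (μ : ∀ i, X i → R i)
    (hμ : ∀ i, IsDReflection (μ i)) :
    IsDReflection (fun (x : ∀ i, X i) (i : I) => μ i (x i)) ∧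
      ∀ (W : Type u) [TopologicalSpace W] (ν : (∀ i, X i) → W), IsDReflection ν →
        ∃ e : W ≃ₜ (∀ i, R i), ∀ (x : ∀ i, X i) (i : I), e (ν x) i = μ i (x i) := by
  refine ⟨reflection_pi μ hμ, fun W _ ν hν => ?_⟩
  obtain ⟨e, he⟩ := homeo_of_reflections (reflection_pi μ hμ) hν
  exact ⟨e, fun x i => congrFun (he x) i⟩

end Pool.Agent.Results.MP_c8df5e_gt.ArbitraryProducts
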